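import Mathlib

/-! Project W (helper2), module SYM (helper58): a symmetric generator of a totally real field of degree `2 ^ m`. -/

set_option autoImplicit false

namespace Pool.Agent.H58.W

open Matrix Polynomial

/-- the integral polynomials -/
noncomputable def qz : ℕ → ℤ[X]
  | 0 => X
  | m + 1 => (qz m).comp (X ^ 2 - C 2)

theorem dg2 : (X ^ 2 - C 2 : ℤ[X]).natDegree = 2 := natDegree_X_pow_sub_C

theorem mo2 : (X ^ 2 - C 2 : ℤ[X]).Monic := monic_X_pow_sub_C 2 (by norm_num)

theorem qz_monic (m : ℕ) : (qz m).Monic := by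
  induction m with
  | zero => exact monic_X
  | succ m ih => exact ih.comp mo2 (by rw [dg2]; norm_num)

theorem qz_deg (m : ℕ) : (qz m).natDegree = 2 ^ m := by
  induction m with
  | zero => simp [qz]
  | succ m ih =>
    show ((qz m).comp (X ^ 2 - C 2)).natDegree = _
    rw [natDegree_comp, dg2, ih, pow_succ]

theorem qz_mod (m : ℕ) : (qz m).map (Int.castRingHom (ZMod 2)) = X ^ (2 ^ m) := by
  induction m with
  | zero => simp [qz]
  | succ m ih =>
    show ((qz m).comp (X ^ 2 - C 2)).map _ = _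
    rw [Polynomial.map_comp, ih]
    have h2 : ((2 : ℤ) : ZMod 2) = 0 := by decide
    have h : (X ^ 2 - C 2 : ℤ[X]).map (Int.castRingHom (ZMod 2)) = X ^ 2 := by
      rw [Polynomial.map_sub, Polynomial.map_pow, map_X, map_C]
      have : (Int.castRingHom (ZMod 2)) 2 = 0 := h2
      rw [this, C_0, sub_zero]
    rw [h, X_pow_comp, ← pow_mul, pow_succ, mul_comm]

theorem qz_even (m n : ℕ) (h : n < 2 ^ m) : (2 : ℤ) ∣ (qz m).coeff n := by
  have h1 : ((qz m).map (Int.castRingHom (ZMod 2))).coeff n = 0 := by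
    rw [qz_mod, coeff_X_pow, if_neg (by omega)]
  rw [coeff_map] at h1
  exact (ZMod.intCast_zmod_eq_zero_iff_dvd _ 2).1 h1

theorem qz_two (m : ℕ) : (qz m).eval 2 = 2 := by
  induction m with
  | zero => simp [qz]
  | succ m ih =>
    show ((qz m).comp (X ^ 2 - C 2)).eval 2 = _
    rw [eval_comp]
    norm_num
    exact ih

theorem qz_zero (m : ℕ) : (qz (m + 1)).coeff 0 = 2 ∨ (qz (m + 1)).coeff 0 = -2 := by
  have h : (qz (m + 1)).coeff 0 = (qz m).eval (-2) := by
    rw [coeff_zero_eq_eval_zero]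
    show ((qz m).comp (X ^ 2 - C 2)).eval 0 = _
    rw [eval_comp]
    norm_num
  rw [h]
  cases m with
  | zero => right; simp [qz]
  | succ m =>
    left
    show ((qz m).comp (X ^ 2 - C 2)).eval (-2) = _
    rw [eval_comp]
    norm_num
    exact qz_two m

theorem qz_irr (m : ℕ) : Irreducible (qz m) := by
  cases m with
  | zero => exact irreducible_X
  | succ m =>
    have hp : (Ideal.span {(2 : ℤ)}).IsPrime := by
      rw [Ideal.span_singleton_prime (by norm_num)]
      exact Int.prime_two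
    refine irreducible_of_eisenstein_criterion hp ?_ ?_ ?_ ?_ (qz_monic _).isPrimitive
    · rw [(qz_monic _).leadingCoeff, Ideal.mem_span_singleton]
      norm_num
    · intro n hn
      rw [Ideal.mem_span_singleton]
      apply qz_even
      rw [degree_eq_natDegree (qz_monic _).ne_zero, qz_deg] at hn
      exact_mod_cast hn
    · rw [degree_eq_natDegree (qz_monic _).ne_zero, qz_deg]
      exact_mod_cast Nat.pos_of_ne_zero (by positivity)
    · rw [Ideal.span_singleton_pow, Ideal.mem_span_singleton]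
      rcases qz_zero m with h | h <;> rw [h] <;> norm_num

/-- the rational polynomials -/
noncomputable def qq (m : ℕ) : ℚ[X] := (qz m).map (Int.castRingHom ℚ)

theorem qq_succ (m : ℕ) : qq (m + 1) = (qq m).comp (X ^ 2 - C 2) := by
  show ((qz m).comp (X ^ 2 - C 2)).map _ = _
  rw [Polynomial.map_comp, Polynomial.map_sub, Polynomial.map_pow, map_X, map_C]
  rfl

theorem qq_real (m : ℕ) : ∀ β : ℂ, aeval β (qq m) = 0 → ∃ r : ℝ, β = r ∧ |r| ≤ 2 := by
  induction m with
  | zero =>
    intro β h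
    refine ⟨0, ?_, by norm_num⟩
    simpa [qq, qz] using h
  | succ m ih =>
    intro β h
    rw [qq_succ, aeval_comp] at h
    obtain ⟨r, hr, hr2⟩ := ih _ h
    have h1 : β ^ 2 = ((r + 2 : ℝ) : ℂ) := by
      simp only [map_sub, map_pow, aeval_X, aeval_C] at hr
      have h2 : (algebraMap ℚ ℂ) 2 = 2 := by norm_num
      rw [h2] at hr
      push_cast
      rw [← hr]
      ring
    have h0 : 0 ≤ r + 2 := by
      have := (abs_le.1 hr2).1
      linarith
    have h4 : r + 2 ≤ 4 := by
      have := (abs_le.1 hr2).2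
      linarith
    have h3 : (β - (√(r + 2) : ℝ)) * (β + (√(r + 2) : ℝ)) = 0 := by
      have : ((√(r + 2) : ℝ) : ℂ) ^ 2 = ((r + 2 : ℝ) : ℂ) := by
        rw [← Complex.ofReal_pow, Real.sq_sqrt h0]
      linear_combination h1 - this
    have h5 : √(r + 2) ≤ 2 := by
      rw [Real.sqrt_le_left (by norm_num)]
      linarith
    rcases mul_eq_zero.1 h3 with h6 | h6
    · exact ⟨√(r + 2), by linear_combination h6, by rw [abs_of_nonneg (Real.sqrt_nonneg _)]; exact h5⟩
    · refine ⟨-√(r + 2), ?_, by rw [abs_neg, abs_of_nonneg (Real.sqrt_nonneg _)]; exact h5⟩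
      push_cast
      linear_combination h6

/-- the block diagonal embedding -/
def dbl (n : Type) [Fintype n] [DecidableEq n] : Matrix n n ℚ →ₐ[ℚ] Matrix (n ⊕ n) (n ⊕ n) ℚ where
  toFun A := fromBlocks A 0 0 A
  map_one' := fromBlocks_one
  map_mul' A B := by simp [fromBlocks_multiply]
  map_zero' := fromBlocks_zero
  map_add' A B := by simp [fromBlocks_add]
  commutes' r := by
    rw [Algebra.algebraMap_eq_smul_one, Algebra.algebraMap_eq_smul_one, ← fromBlocks_one, fromBlocks_smul]
    simp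

theorem tr2 {n : Type} [Fintype n] [DecidableEq n] : (2 : Matrix n n ℚ)ᵀ = 2 := by
  rw [← Nat.cast_ofNat, transpose_natCast]

/-- the matrices of the recursion -/
theorem rec_mat {n : Type} [Fintype n] [DecidableEq n] (S R : Matrix n n ℚ) (hS : Sᵀ = S) (hR : Rᵀ = R)
    (hc : S * R = R * S) (h4 : S * S + R * R = 4) (p : ℚ[X]) (hp : aeval S p = 0) :
    ∃ S' R' : Matrix (n ⊕ n) (n ⊕ n) ℚ, S'ᵀ = S' ∧ R'ᵀ = R' ∧ S' * R' = R' * S' ∧ S' * S' + R' * R' = 4 ∧
      aeval S' (p.comp (X ^ 2 - C 2)) = 0 := by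
  have h22 : (2 : Matrix n n ℚ)ᵀ = 2 := tr2
  have hRR : R * R = 4 - S * S := by
    rw [← h4]
    abel
  have hb4 : (4 : Matrix (n ⊕ n) (n ⊕ n) ℚ) = fromBlocks 4 0 0 4 := by
    have := map_ofNat (dbl n) 4
    exact this.symm
  have hb2 : (2 : Matrix (n ⊕ n) (n ⊕ n) ℚ) = fromBlocks 2 0 0 2 := by
    have := map_ofNat (dbl n) 2
    exact this.symm
  refine ⟨(1 / 2 : ℚ) • fromBlocks (2 + S) R R (-(2 + S)), (1 / 2 : ℚ) • fromBlocks R (2 - S) (2 - S) (-R),
    ?_, ?_, ?_, ?_, ?_⟩
  · rw [transpose_smul, fromBlocks_transpose, transpose_add, transpose_neg, transpose_add, hS, hR, h22]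
  · rw [transpose_smul, fromBlocks_transpose, transpose_sub, transpose_neg, hS, hR, h22]
  · simp only [smul_mul_smul_comm, fromBlocks_multiply]
    congr 2
    · simp only [mul_add, add_mul, mul_sub, sub_mul, mul_neg, neg_mul, hc]
      noncomm_ring
    · simp only [hRR, mul_add, add_mul, mul_sub, sub_mul, mul_neg, neg_mul, hc]
      noncomm_ring
      simp only [zsmul_eq_mul]
      norm_num
    · simp only [hRR, mul_add, add_mul, mul_sub, sub_mul, mul_neg, neg_mul, hc]
      noncomm_ring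
      simp only [zsmul_eq_mul]
      norm_num
    · simp only [mul_add, add_mul, mul_sub, sub_mul, mul_neg, neg_mul, hc]
      noncomm_ring
  · simp only [smul_mul_smul_comm, fromBlocks_multiply, ← smul_add, fromBlocks_add]
    rw [hb4, fromBlocks_smul]
    have k4 : (4 : Matrix n n ℚ) = (1 / 2 * (1 / 2) : ℚ) • 16 := by
      rw [← map_ofNat (algebraMap ℚ (Matrix n n ℚ)) 4, ← map_ofNat (algebraMap ℚ (Matrix n n ℚ)) 16,
        Algebra.smul_def, ← map_mul]
      congr 1
      norm_num
    have k0 : (0 : Matrix n n ℚ) = (1 / 2 * (1 / 2) : ℚ) • 0 := by simp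
    rw [k4, k0]
    congr 2
    · simp only [hRR, mul_add, add_mul, mul_sub, sub_mul]
      noncomm_ring
      simp only [zsmul_eq_mul]
      norm_num
    · simp only [mul_add, add_mul, mul_sub, sub_mul, mul_neg, neg_mul, hc]
      noncomm_ring
    · simp only [mul_add, add_mul, mul_sub, sub_mul, mul_neg, neg_mul, hc]
      noncomm_ring
    · simp only [hRR, mul_add, add_mul, mul_sub, sub_mul, mul_neg, neg_mul]
      noncomm_ring
      simp only [zsmul_eq_mul]
      norm_num
  · rw [aeval_comp]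
    have h1 : aeval ((1 / 2 : ℚ) • fromBlocks (2 + S) R R (-(2 + S))) (X ^ 2 - C 2 : ℚ[X]) = dbl n S := by
      simp only [map_sub, map_pow, aeval_X, aeval_C]
      rw [sq, smul_mul_smul_comm, fromBlocks_multiply, map_ofNat, hb2, fromBlocks_smul, sub_eq_iff_eq_add]
      show _ = fromBlocks S 0 0 S + fromBlocks 2 0 0 2
      rw [fromBlocks_add]
      have k4 : S + 2 = (1 / 2 * (1 / 2) : ℚ) • (4 • S + 8) := by
        rw [smul_add]
        congr 1
        · rw [← Nat.cast_smul_eq_nsmul ℚ, smul_smul]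
          norm_num
        · rw [← map_ofNat (algebraMap ℚ (Matrix n n ℚ)) 2, ← map_ofNat (algebraMap ℚ (Matrix n n ℚ)) 8,
            Algebra.smul_def, ← map_mul]
          congr 1
          norm_num
      have k0 : (0 + 0 : Matrix n n ℚ) = (1 / 2 * (1 / 2) : ℚ) • 0 := by simp
      rw [k4, k0]
      congr 2
      · simp only [hRR, mul_add, add_mul]
        noncomm_ring
        have e1 : (2 : ℤ) • (2 : Matrix n n ℚ) = 4 := by
          simp only [zsmul_eq_mul]
          norm_num
        have e2 : (4 : Matrix n n ℚ) + 4 = 8 := by norm_num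
        rw [e1, add_left_comm, e2]
      · simp only [mul_add, add_mul, mul_sub, sub_mul, mul_neg, neg_mul, hc]
        noncomm_ring
      · simp only [mul_add, add_mul, mul_sub, sub_mul, mul_neg, neg_mul, hc]
        noncomm_ring
      · simp only [hRR, mul_add, add_mul, mul_sub, sub_mul, mul_neg, neg_mul]
        noncomm_ring
        have e1 : (2 : ℤ) • (2 : Matrix n n ℚ) = 4 := by
          simp only [zsmul_eq_mul]
          norm_num
        have e2 : (4 : Matrix n n ℚ) + 4 = 8 := by norm_num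
        rw [e1, ← add_assoc, e2, add_comm]
    rw [h1, aeval_algHom_apply, hp, map_zero]

theorem exists_mat (m : ℕ) : ∃ S R : Matrix (Fin (2 ^ m)) (Fin (2 ^ m)) ℚ, Sᵀ = S ∧ Rᵀ = R ∧ S * R = R * S ∧
    S * S + R * R = 4 ∧ aeval S (qq m) = 0 := by
  induction m with
  | zero =>
    refine ⟨0, 2, transpose_zero, ?_, by simp, ?_, ?_⟩
    · exact tr2
    · norm_num
    · simp [qq, qz]
  | succ m ih =>
    obtain ⟨S, R, hS, hR, hc, h4, hp⟩ := ih
    obtain ⟨S', R', hS', hR', hc', h4', hp'⟩ := rec_mat S R hS hR hc h4 (qq m) hp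
    have e : Fin (2 ^ m) ⊕ Fin (2 ^ m) ≃ Fin (2 ^ (m + 1)) :=
      finSumFinEquiv.trans (finCongr (by ring))
    let f := Matrix.reindexAlgEquiv ℚ ℚ e
    have hT : ∀ A : Matrix (Fin (2 ^ m) ⊕ Fin (2 ^ m)) (Fin (2 ^ m) ⊕ Fin (2 ^ m)) ℚ, Aᵀ = A → (f A)ᵀ = f A := by
      intro A hA
      show (Matrix.reindex e e A)ᵀ = Matrix.reindex e e A
      rw [Matrix.transpose_reindex, hA]
    refine ⟨f S', f R', hT _ hS', hT _ hR', ?_, ?_, ?_⟩
    · rw [← map_mul, hc', map_mul]
    · rw [← map_mul, ← map_mul, ← map_add, h4', map_ofNat]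
    · rw [qq_succ]
      have := aeval_algHom_apply f.toAlgHom S' ((qq m).comp (X ^ 2 - C 2))
      rw [hp', map_zero] at this
      exact this

theorem sym0 (m : ℕ) : ∃ (S : Matrix (Fin (2 ^ m)) (Fin (2 ^ m)) ℚ) (q : Polynomial ℚ), Sᵀ = S ∧ q.Monic ∧
    Irreducible q ∧ q.natDegree = 2 ^ m ∧ aeval S q = 0 ∧
    ∀ β : ℂ, aeval β q = 0 → (starRingEnd ℂ) β = β := by
  obtain ⟨S, R, hS, -, -, -, hp⟩ := exists_mat m
  refine ⟨S, qq m, hS, (qz_monic m).map _, ?_, ?_, hp, ?_⟩
  · exact (IsPrimitive.Int.irreducible_iff_irreducible_map_cast (qz_monic m).isPrimitive).1 (qz_irr m)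
  · show ((qz m).map _).natDegree = _
    rw [(qz_monic m).natDegree_map, qz_deg]
  · intro β hβ
    obtain ⟨r, hr, -⟩ := qq_real m β hβ
    rw [hr]
    exact Complex.conj_ofReal r

end Pool.Agent.H58.W
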