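import Pool.Agent.H2.W.Stm
import Pool.Agent.H58.W.Sym0

/-! Project W (helper2), module SYM (helper58): the proof is in `Sym0.lean`. -/

set_option autoImplicit false

namespace Pool.Agent.H58.W

theorem sym : Pool.Agent.H2.W.S_SYM := sym0

end Pool.Agent.H58.W
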